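import Pool.Agent.W338.TW.Alg
import Pool.Agent.H474R2.GE.FA
import Pool.Agent.W262.TW.Stm

/-! # The average of the number of the sign patterns is smaller than 1 (TW-ANT) -/

set_option autoImplicit false

namespace Pool.Agent.W338.TW

open Polynomial Finset NumberField Pool.Agent.W262.TW
open Pool.Agent.H474R2.PG (rho PR Sg)

theorem hom_le (L : Type) [Field L] [NumberField L] {p : ℕ} (hp : p.Prime) :
    Nat.card (𝓞 L →+* ZMod p) ≤ Module.finrank ℚ L := by
  have h := Pool.Agent.H921R2.TatePole.R_le (K := L) ⟨p, hp⟩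
  have h2 := Pool.Agent.H921R2.TatePole.R_eq_hc (K := L) ⟨p, hp⟩
  exact (le_of_eq h2.symm).trans h

/-- the primitive part -/
theorem exists_prim (f : ℤ[X]) (hf : Irreducible (f.map (Int.castRingHom ℚ))) :
    ∃ g : ℤ[X], Irreducible g ∧ g.natDegree = f.natDegree ∧
      ∃ B : ℕ, ∀ p : ℕ, p.Prime → B < p → rho f p ≤ rho g p := by
  have hf0 : f ≠ 0 := by
    intro h
    rw [h, Polynomial.map_zero] at hf
    exact not_irreducible_zero hf
  have hc0 : f.content ≠ 0 := by
    rwa [Ne, content_eq_zero_iff]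
  have hfe := f.eq_C_content_mul_primPart
  refine ⟨f.primPart, ?_, f.natDegree_primPart, f.content.natAbs, fun p hp hB => ?_⟩
  · rw [IsPrimitive.Int.irreducible_iff_irreducible_map_cast f.isPrimitive_primPart]
    rw [hfe, Polynomial.map_mul, Polynomial.map_C] at hf
    refine (irreducible_isUnit_mul ?_).1 hf
    rw [isUnit_C]
    exact isUnit_iff_ne_zero.2 (by
      rw [eq_intCast]
      exact_mod_cast hc0)
  · have : Fact p.Prime := ⟨hp⟩
    refine Finset.card_le_card fun a ha => ?_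
    rw [Finset.mem_filter] at ha ⊢
    refine ⟨ha.1, ?_⟩
    have h1 := ha.2
    rw [hfe, eval_mul, eval_C] at h1
    rcases (Nat.prime_iff_prime_int.1 hp).dvd_or_dvd h1 with h | h
    · exfalso
      apply ne_zero_of_lt hc0 hB
      exact (ZMod.intCast_zmod_eq_zero_iff_dvd _ _).2 h
    · exact h

/-- two zeros -/
theorem two_roots {L : Type} [Field L] [CharZero L] (f : ℤ[X])
    (hf : Irreducible (f.map (Int.castRingHom ℚ))) (hd : 2 ≤ f.natDegree)
    (hs : (f.map (Int.castRingHom L)).Splits) :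
    ∃ θ₁ θ₂ : L, θ₁ ≠ θ₂ ∧ eval₂ (Int.castRingHom L) θ₁ f = 0 ∧
      eval₂ (Int.castRingHom L) θ₂ f = 0 := by
  classical
  have hf0 : f ≠ 0 := by
    intro h
    rw [h, natDegree_zero] at hd
    omega
  have hf0' : f.map (Int.castRingHom L) ≠ 0 := by
    rwa [Ne, Polynomial.map_eq_zero_iff (RingHom.injective_int _)]
  have hsep : (f.map (Int.castRingHom L)).Separable := by
    have h1 := (hf.separable).map (f := algebraMap ℚ L)
    rw [Polynomial.map_map] at h1
    rwa [RingHom.ext_int (Int.castRingHom L) ((algebraMap ℚ L).comp (Int.castRingHom ℚ))]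
  have h1 := nodup_roots hsep
  have h2 := hs.natDegree_eq_card_roots
  rw [natDegree_map_eq_of_injective (RingHom.injective_int _)] at h2
  have h3 : 1 < (f.map (Int.castRingHom L)).roots.toFinset.card := by
    rw [Multiset.toFinset_card_of_nodup h1, ← h2]
    omega
  obtain ⟨a, ha, b, hb, hab⟩ := Finset.one_lt_card.1 h3
  rw [Multiset.mem_toFinset, mem_roots hf0', IsRoot.def, eval_map] at ha hb
  exact ⟨a, b, hab, ha, hb⟩

theorem card_Th_le {K : Type} [Fintype K] [DecidableEq K] (f : K → ℤ[X]) (i : K) (p : ℕ) :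
    (Th f i p).card ≤ rho (f i) p := by
  unfold Th rho
  exact Finset.card_image_le

theorem card_Th_le_one {K : Type} [Fintype K] [DecidableEq K] (f : K → ℤ[X]) (i : K) {p : ℕ}
    (hp : p.Prime) (h : ∀ t : ℤ, (p : ℤ) ∣ (f i).eval t → ∀ k,
      IsSquare (((f k).eval t : ℤ) : ZMod p)) :
    (Th f i p).card ≤ 1 := by
  have : Fact p.Prime := ⟨hp⟩
  refine (Finset.card_le_card (t := {∅}) fun N hN => ?_).trans_eq (Finset.card_singleton _)
  unfold Th at hN
  rw [Finset.mem_image] at hN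
  obtain ⟨θ, hθ, rfl⟩ := hN
  rw [Finset.mem_singleton]
  unfold ngs
  refine Finset.filter_eq_empty_iff.2 fun k _ hk => ?_
  have h1 := hk.2
  rw [← jacobiSym.legendreSym.to_jacobiSym, legendreSym.eq_neg_one_iff] at h1
  exact h1 (h θ (Finset.mem_filter.1 hθ).2 k)

theorem ant : ANT := by
  intro K _ _ f hirr hdeg i
  have hf0 : f i ≠ 0 := by
    intro h
    have := hdeg i
    rw [h, natDegree_zero] at this
    omega
  obtain ⟨L, iF, iN, hsp, hsq⟩ := exists_field (f i) hf0 f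
  obtain ⟨B1, hB1⟩ := modp (L := L) (f i) hf0 f hsp hsq (two_roots (f i) (hirr i) (hdeg i) hsp)
  obtain ⟨g, hg, hgd, B2, hB2⟩ := exists_prim (f i) (hirr i)
  obtain ⟨C1, -, hC1⟩ := Pool.Agent.H474R2.GE.mertens_rho g hg (by
    have := hdeg i
    omega)
  obtain ⟨C2, hC2⟩ := Pool.Agent.H474R2.PG.homs_lower L
  have hn : 0 < Module.finrank ℚ L := Module.finrank_pos
  obtain ⟨n, hnd⟩ : ∃ n : ℝ, n = Module.finrank ℚ L := ⟨_, rfl⟩
  have hn0 : 0 < n := by rw [hnd]; exact_mod_cast hn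
  obtain ⟨B, hB⟩ : ∃ B : ℕ, B = max B1 B2 := ⟨_, rfl⟩
  -- large primes
  have hbig : ∀ p : ℕ, p.Prime → B < p →
      ((Th f i p).card : ℝ) ≤ rho g p - (Nat.card (𝓞 L →+* ZMod p) : ℝ) / n := by
    intro p hp hpB
    have h1 : (Nat.card (𝓞 L →+* ZMod p) : ℝ) / n ≤ 1 := by
      rw [div_le_one hn0, hnd]
      exact_mod_cast hom_le L hp
    have h2 := hB2 p hp (lt_of_le_of_lt (by rw [hB]; exact le_max_right _ _) hpB)
    by_cases hne : Nonempty (𝓞 L →+* ZMod p)
    · obtain ⟨h3, h4⟩ := hB1 p hp (lt_of_le_of_lt (by rw [hB]; exact le_max_left _ _) hpB) hne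
      have h5 := card_Th_le_one f i hp h3
      have h6 : (Th f i p).card + 1 ≤ rho g p := by omega
      have h7 : ((Th f i p).card : ℝ) + 1 ≤ rho g p := by exact_mod_cast h6
      linarith
    · have h3 : Nat.card (𝓞 L →+* ZMod p) = 0 := by
        rw [not_nonempty_iff] at hne
        exact Nat.card_of_isEmpty
      rw [h3, Nat.cast_zero, zero_div, sub_zero]
      exact_mod_cast (card_Th_le f i p).trans h2
  obtain ⟨S0, hS0⟩ : ∃ S0 : ℝ, S0 = ∑ p ∈ PR B, ((rho (f i) p : ℝ) / p +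
    (Nat.card (𝓞 L →+* ZMod p) : ℝ) / n / p) := ⟨_, rfl⟩
  refine ⟨1 / n, by positivity, S0 + C1 + C2 / n, fun z x hx => ?_⟩
  have hx3 : (3 : ℝ) ≤ (x : ℝ) := by exact_mod_cast hx
  have hsub : Pool.Agent.W262.RK.PS z x ⊆ PR (x : ℝ) := by
    intro p hp
    unfold Pool.Agent.W262.RK.PS at hp
    unfold Pool.Agent.H474R2.PG.PR
    rw [Finset.mem_filter, Finset.mem_Ioc] at hp
    rw [Finset.mem_filter, Finset.mem_Icc, Nat.floor_natCast]
    exact ⟨⟨hp.2.one_lt.le, hp.1.2⟩, hp.2⟩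
  have h1 : ∑ p ∈ Pool.Agent.W262.RK.PS z x, ((Th f i p).card : ℝ) / p ≤
      ∑ p ∈ PR (x : ℝ), ((Th f i p).card : ℝ) / p :=
    Finset.sum_le_sum_of_subset_of_nonneg hsub fun p _ _ => by positivity
  have h2 : ∑ p ∈ PR (x : ℝ), ((Th f i p).card : ℝ) / p ≤
      S0 + ∑ p ∈ PR (x : ℝ), ((rho g p : ℝ) / p - (Nat.card (𝓞 L →+* ZMod p) : ℝ) / n / p) := by
    rw [← Finset.sum_filter_add_sum_filter_not (PR (x : ℝ)) (fun p => p ≤ B),
      ← Finset.sum_filter_add_sum_filter_not (PR (x : ℝ)) (fun p => p ≤ B)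
        (fun p => (rho g p : ℝ) / p - (Nat.card (𝓞 L →+* ZMod p) : ℝ) / n / p)]
    have e1 : ∑ p ∈ (PR (x : ℝ)).filter (fun p => p ≤ B), ((Th f i p).card : ℝ) / p ≤
        S0 + ∑ p ∈ (PR (x : ℝ)).filter (fun p => p ≤ B),
          ((rho g p : ℝ) / p - (Nat.card (𝓞 L →+* ZMod p) : ℝ) / n / p) := by
      rw [← sub_le_iff_le_add, ← Finset.sum_sub_distrib, hS0]
      refine (Finset.sum_le_sum fun p _ => ?_).trans
        (Finset.sum_le_sum_of_subset_of_nonneg (s := (PR (x : ℝ)).filter (fun p => p ≤ B))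
          (f := fun p => (rho (f i) p : ℝ) / p + (Nat.card (𝓞 L →+* ZMod p) : ℝ) / n / p)
          (fun p hp => ?_) fun p _ _ => by positivity)
      · have e2 : ((Th f i p).card : ℝ) / p ≤ (rho (f i) p : ℝ) / p := by
          have : ((Th f i p).card : ℝ) ≤ rho (f i) p := by exact_mod_cast card_Th_le f i p
          exact div_le_div_of_nonneg_right this (by positivity)
        have e3 : (0 : ℝ) ≤ (rho g p : ℝ) / p := by positivity
        linarith
      · rw [Finset.mem_filter] at hp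
        unfold Pool.Agent.H474R2.PG.PR at hp ⊢
        rw [Finset.mem_filter, Finset.mem_Icc] at hp
        rw [Finset.mem_filter, Finset.mem_Icc, Nat.floor_natCast]
        exact ⟨⟨hp.1.1.1, hp.2⟩, hp.1.2⟩
    have e2 : ∑ p ∈ (PR (x : ℝ)).filter (fun p => ¬ p ≤ B), ((Th f i p).card : ℝ) / p ≤
        ∑ p ∈ (PR (x : ℝ)).filter (fun p => ¬ p ≤ B),
          ((rho g p : ℝ) / p - (Nat.card (𝓞 L →+* ZMod p) : ℝ) / n / p) := by
      refine Finset.sum_le_sum fun p hp => ?_
      rw [Finset.mem_filter] at hp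
      have hpp : p.Prime := by
        have := hp.1
        unfold Pool.Agent.H474R2.PG.PR at this
        exact (Finset.mem_filter.1 this).2
      rw [← sub_div]
      exact div_le_div_of_nonneg_right (hbig p hpp (not_le.1 hp.2)) (by positivity)
    linarith
  have h3 : ∑ p ∈ PR (x : ℝ), ((rho g p : ℝ) / p - (Nat.card (𝓞 L →+* ZMod p) : ℝ) / n / p) =
      Sg (rho g) x - (∑ p ∈ PR (x : ℝ), (Nat.card (𝓞 L →+* ZMod p) : ℝ) / p) / n := by
    rw [Finset.sum_sub_distrib, Finset.sum_div]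
    unfold Pool.Agent.H474R2.PG.Sg
    congr 1
    exact Finset.sum_congr rfl fun p _ => div_right_comm _ _ _
  have h4 := (abs_le.1 (hC1 x hx3)).2
  have h5 := hC2 x hx3
  have h6 : (Real.log (Real.log x) - C2) / n ≤
      (∑ p ∈ PR (x : ℝ), (Nat.card (𝓞 L →+* ZMod p) : ℝ) / p) / n :=
    div_le_div_of_nonneg_right h5 hn0.le
  have h7 : (Real.log (Real.log x) - C2) / n = 1 / n * Real.log (Real.log x) - C2 / n := by ring
  have h8 : (1 - 1 / n) * Real.log (Real.log x) =
      Real.log (Real.log x) - 1 / n * Real.log (Real.log x) := by ring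
  rw [h8]
  linarith

end Pool.Agent.W338.TW
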