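import Pool.Agent.H921R2.TatePole.Tensor
import Pool.Agent.H474R2.PG.Defs

/-! # Split primes: all values `f k (θ)` at the zeros of `f i` are squares (TW-ANT, algebraic part) -/

set_option autoImplicit false

namespace Pool.Agent.W338.TW

open Polynomial Finset NumberField

theorem ev_coe {Ω : Type} [Field Ω] [Algebra ℚ Ω] (E : IntermediateField ℚ Ω) (θ : E) (q : ℤ[X]) :
    ((eval₂ (Int.castRingHom E) θ q : E) : Ω) = eval₂ (Int.castRingHom Ω) (θ : Ω) q := by
  have h := Polynomial.hom_eval₂ q (Int.castRingHom E) (algebraMap E Ω) θ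
  rw [RingHom.ext_int ((algebraMap E Ω).comp (Int.castRingHom E)) (Int.castRingHom Ω)] at h
  exact h

/-- the number field generated by the zeros of `f` and square roots of the values of the `g k` -/
theorem exists_field {K : Type} [Fintype K] (f : ℤ[X]) (hf : f ≠ 0) (g : K → ℤ[X]) :
    ∃ (L : Type) (_ : Field L) (_ : NumberField L), (f.map (Int.castRingHom L)).Splits ∧
      ∀ θ : L, eval₂ (Int.castRingHom L) θ f = 0 → ∀ k, IsSquare (eval₂ (Int.castRingHom L) θ (g k)) := by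
  classical
  have halg : Algebra.IsAlgebraic ℚ (AlgebraicClosure ℚ) := AlgebraicClosure.isAlgebraic ℚ
  have hsq : ∀ x : AlgebraicClosure ℚ, ∃ y, x = y * y := fun x => IsAlgClosed.exists_eq_mul_self x
  choose s hs using hsq
  obtain ⟨R, hR⟩ : ∃ R : Finset (AlgebraicClosure ℚ),
    R = (f.map (Int.castRingHom (AlgebraicClosure ℚ))).roots.toFinset := ⟨_, rfl⟩
  have hf0 : f.map (Int.castRingHom (AlgebraicClosure ℚ)) ≠ 0 := by
    rwa [Ne, Polynomial.map_eq_zero_iff (RingHom.injective_int _)]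
  have hRm : ∀ θ, θ ∈ R ↔ eval₂ (Int.castRingHom (AlgebraicClosure ℚ)) θ f = 0 := by
    intro θ
    rw [hR, Multiset.mem_toFinset, mem_roots hf0, IsRoot.def, eval_map]
  obtain ⟨S, hS⟩ : ∃ S : Finset (AlgebraicClosure ℚ),
    S = R ∪ univ.biUnion (fun k => R.image
      (fun θ => s (eval₂ (Int.castRingHom (AlgebraicClosure ℚ)) θ (g k)))) := ⟨_, rfl⟩
  have hRS : ∀ θ ∈ R, θ ∈ S := fun θ h => by rw [hS]; exact mem_union_left _ h
  have hsS : ∀ θ ∈ R, ∀ k, s (eval₂ (Int.castRingHom (AlgebraicClosure ℚ)) θ (g k)) ∈ S := by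
    intro θ h k
    rw [hS]
    exact mem_union_right _ (mem_biUnion.2 ⟨k, mem_univ _, mem_image_of_mem _ h⟩)
  have hfd : FiniteDimensional ℚ (IntermediateField.adjoin ℚ (S : Set (AlgebraicClosure ℚ))) :=
    IntermediateField.finiteDimensional_adjoin fun x _ =>
      (Algebra.IsAlgebraic.isAlgebraic (R := ℚ) x).isIntegral
  have hsub : ∀ x ∈ S, x ∈ IntermediateField.adjoin ℚ (S : Set (AlgebraicClosure ℚ)) :=
    fun x hx => IntermediateField.subset_adjoin _ _ hx
  have hnf : NumberField (IntermediateField.adjoin ℚ (S : Set (AlgebraicClosure ℚ))) :=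
    { to_charZero := inferInstance, to_finiteDimensional := hfd }
  refine ⟨IntermediateField.adjoin ℚ (S : Set (AlgebraicClosure ℚ)), inferInstance, hnf, ?_, ?_⟩
  · have h1 := IntermediateField.splits_of_splits (p := f.map (Int.castRingHom ℚ))
      (F := IntermediateField.adjoin ℚ (S : Set (AlgebraicClosure ℚ)))
      (IsAlgClosed.splits _) (by
        intro x hx
        apply hsub
        apply hRS
        rw [hRm]
        have h2 := (mem_rootSet.1 hx).2
        rw [aeval_def, eval₂_map] at h2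
        rwa [RingHom.ext_int (Int.castRingHom (AlgebraicClosure ℚ))
          ((algebraMap ℚ (AlgebraicClosure ℚ)).comp (Int.castRingHom ℚ))])
    rw [Polynomial.map_map] at h1
    rwa [RingHom.ext_int (Int.castRingHom _) ((algebraMap ℚ (IntermediateField.adjoin ℚ
      (S : Set (AlgebraicClosure ℚ)))).comp (Int.castRingHom ℚ))]
  · intro θ hθ k
    have hev := ev_coe (IntermediateField.adjoin ℚ (S : Set (AlgebraicClosure ℚ))) θ
    have h1 : (θ : AlgebraicClosure ℚ) ∈ R := by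
      rw [hRm, ← hev, hθ]
      rfl
    refine ⟨⟨_, hsub _ (hsS _ h1 k)⟩, ?_⟩
    apply Subtype.ext
    rw [hev]
    exact hs _

section modp

variable {L : Type} [Field L] [NumberField L]

theorem inj {a b : 𝓞 L} (h : algebraMap (𝓞 L) L a = algebraMap (𝓞 L) L b) : a = b :=
  RingOfIntegers.ext h

/-- a common denominator -/
theorem exists_den (R : Finset L) : ∃ N : ℤ, N ≠ 0 ∧ ∀ θ ∈ R, ∃ b : 𝓞 L,
    algebraMap (𝓞 L) L b = (N : L) * θ := by
  classical
  induction R using Finset.induction_on with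
  | empty => exact ⟨1, one_ne_zero, fun θ h => absurd h (Finset.notMem_empty θ)⟩
  | insert a s _ ih =>
    obtain ⟨N, hN, hs⟩ := ih
    obtain ⟨N', hN', b', hb'⟩ := Pool.Agent.H921R2.TatePole.exists_int_mul (K := L) a
    refine ⟨N * N', mul_ne_zero hN hN', fun θ hθ => ?_⟩
    rcases Finset.mem_insert.1 hθ with h | h
    · subst h
      refine ⟨(N : 𝓞 L) * b', ?_⟩
      have hb'' : algebraMap (𝓞 L) L b' = (N' : L) * θ := hb'
      rw [map_mul, map_intCast, hb'']
      push_cast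
      ring
    · obtain ⟨b, hb⟩ := hs θ h
      refine ⟨(N' : 𝓞 L) * b, ?_⟩
      rw [map_mul, map_intCast, hb]
      push_cast
      ring

theorem coe_eval (q : ℤ[X]) (b : 𝓞 L) :
    algebraMap (𝓞 L) L (eval₂ (Int.castRingHom (𝓞 L)) b q) =
      eval₂ (Int.castRingHom L) (algebraMap (𝓞 L) L b) q := by
  have h := Polynomial.hom_eval₂ q (Int.castRingHom (𝓞 L)) (algebraMap (𝓞 L) L) b
  rw [RingHom.ext_int ((algebraMap (𝓞 L) L).comp (Int.castRingHom (𝓞 L))) (Int.castRingHom L)] at h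
  exact h

theorem hom_eval {p : ℕ} (φ : 𝓞 L →+* ZMod p) (q : ℤ[X]) (b : 𝓞 L) :
    φ (eval₂ (Int.castRingHom (𝓞 L)) b q) = eval₂ (Int.castRingHom (ZMod p)) (φ b) q := by
  have h := Polynomial.hom_eval₂ q (Int.castRingHom (𝓞 L)) φ b
  rw [RingHom.ext_int (φ.comp (Int.castRingHom (𝓞 L))) (Int.castRingHom (ZMod p))] at h
  exact h

theorem ne_zero_of_lt {N : ℤ} {p : ℕ} (hN : N ≠ 0) (hp : N.natAbs < p) : ((N : ℤ) : ZMod p) ≠ 0 := by
  intro h
  rw [ZMod.intCast_zmod_eq_zero_iff_dvd] at h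
  rw [Int.natCast_dvd] at h
  have := Nat.le_of_dvd (Int.natAbs_pos.2 hN) h
  omega

/-- the main fact -/
theorem modp {K : Type} (f : ℤ[X]) (hf : f ≠ 0) (g : K → ℤ[X])
    (hs : (f.map (Int.castRingHom L)).Splits)
    (hg : ∀ θ : L, eval₂ (Int.castRingHom L) θ f = 0 → ∀ k,
      IsSquare (eval₂ (Int.castRingHom L) θ (g k)))
    (h2 : ∃ θ₁ θ₂ : L, θ₁ ≠ θ₂ ∧ eval₂ (Int.castRingHom L) θ₁ f = 0 ∧
      eval₂ (Int.castRingHom L) θ₂ f = 0) :
    ∃ B : ℕ, ∀ p : ℕ, p.Prime → B < p → Nonempty (𝓞 L →+* ZMod p) →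
      (∀ t : ℤ, (p : ℤ) ∣ f.eval t → ∀ k, IsSquare (((g k).eval t : ℤ) : ZMod p)) ∧
      2 ≤ Pool.Agent.H474R2.PG.rho f p := by
  classical
  have hf0 : f.map (Int.castRingHom L) ≠ 0 := by
    rwa [Ne, Polynomial.map_eq_zero_iff (RingHom.injective_int _)]
  obtain ⟨R, hR⟩ : ∃ R : Finset L, R = (f.map (Int.castRingHom L)).roots.toFinset := ⟨_, rfl⟩
  have hRm : ∀ θ, θ ∈ R ↔ eval₂ (Int.castRingHom L) θ f = 0 := by
    intro θ
    rw [hR, Multiset.mem_toFinset, mem_roots hf0, IsRoot.def, eval_map]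
  obtain ⟨N, hN, hb⟩ := exists_den R
  have hex : ∃ b : L → 𝓞 L, ∀ θ ∈ R, algebraMap (𝓞 L) L (b θ) = (N : L) * θ := by
    refine ⟨fun θ => if h : θ ∈ R then (hb θ h).choose else 0, fun θ h => ?_⟩
    simp only [dif_pos h]
    exact (hb θ h).choose_spec
  obtain ⟨b, hb⟩ := hex
  obtain ⟨θ₁, θ₂, h12, hθ₁, hθ₂⟩ := h2
  have hNL : (N : L) ≠ 0 := by exact_mod_cast hN
  have hδ : b θ₁ - b θ₂ ≠ 0 := by
    intro h
    apply h12
    have h1 : algebraMap (𝓞 L) L (b θ₁ - b θ₂) = 0 := by rw [h, map_zero]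
    rw [map_sub, hb θ₁ ((hRm _).2 hθ₁), hb θ₂ ((hRm _).2 hθ₂), ← mul_sub] at h1
    exact sub_eq_zero.1 ((mul_eq_zero.1 h1).resolve_left hNL)
  have hA : IsAlgebraic ℤ (b θ₁ - b θ₂) := Algebra.IsAlgebraic.isAlgebraic _
  obtain ⟨M, hM0, hM⟩ := hA.exists_nonzero_dvd (mem_nonZeroDivisors_of_ne_zero hδ)
  refine ⟨N.natAbs + M.natAbs + f.leadingCoeff.natAbs, fun p hp hpB ⟨φ⟩ => ?_⟩
  have : Fact p.Prime := ⟨hp⟩
  have hNp : ((N : ℤ) : ZMod p) ≠ 0 := ne_zero_of_lt hN (by omega)
  have hMp : ((M : ℤ) : ZMod p) ≠ 0 := ne_zero_of_lt hM0 (by omega)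
  have hcp : ((f.leadingCoeff : ℤ) : ZMod p) ≠ 0 :=
    ne_zero_of_lt (leadingCoeff_ne_zero.2 hf) (by omega)
  -- values of scaled polynomials
  have hsc : ∀ (q : ℤ[X]) (u : ZMod p), eval₂ (Int.castRingHom (ZMod p)) ((N : ZMod p) * u)
      (scaleRoots q N) = (N : ZMod p) ^ q.natDegree * eval₂ (Int.castRingHom (ZMod p)) u q := by
    intro q u
    exact scaleRoots_eval₂_mul (Int.castRingHom (ZMod p)) u N
  have hscL : ∀ (q : ℤ[X]), ∀ θ ∈ R, eval₂ (Int.castRingHom L) (algebraMap (𝓞 L) L (b θ)) (scaleRoots q N) =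
      (N : L) ^ q.natDegree * eval₂ (Int.castRingHom L) θ q := by
    intro q θ hθ
    rw [hb θ hθ]
    exact scaleRoots_eval₂_mul (Int.castRingHom L) θ N
  have hev : ∀ (q : ℤ[X]) (t : ℤ), eval₂ (Int.castRingHom (ZMod p)) (t : ZMod p) q =
      ((q.eval t : ℤ) : ZMod p) := by
    intro q t
    have := Polynomial.eval₂_at_apply (p := q) (Int.castRingHom (ZMod p)) t
    exact this
  refine ⟨?_, ?_⟩
  · intro t ht k
    have ht0 : ((f.eval t : ℤ) : ZMod p) = 0 := (ZMod.intCast_zmod_eq_zero_iff_dvd _ _).2 ht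
    -- a zero above `t`
    have hprod : ∃ θ ∈ R, φ (b θ) = (N : ZMod p) * (t : ZMod p) := by
      have e1 := hs.eval_eq_prod_roots (t : L)
      have e2 : (N : L) ^ Multiset.card (f.map (Int.castRingHom L)).roots *
          eval (t : L) (f.map (Int.castRingHom L)) =
          (f.leadingCoeff : L) * ((f.map (Int.castRingHom L)).roots.map
            (fun θ => (N : L) * t - algebraMap (𝓞 L) L (b θ))).prod := by
        rw [e1, leadingCoeff_map_of_injective (RingHom.injective_int _)]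
        have e3 : ((f.map (Int.castRingHom L)).roots.map
            (fun θ => (N : L) * t - algebraMap (𝓞 L) L (b θ))).prod =
            (N : L) ^ Multiset.card (f.map (Int.castRingHom L)).roots *
            ((f.map (Int.castRingHom L)).roots.map (fun θ => (t : L) - θ)).prod := by
          rw [← Multiset.prod_replicate, ← Multiset.map_const', ← Multiset.prod_map_mul]
          congr 1
          refine Multiset.map_congr rfl fun θ hθ => ?_
          rw [hb θ (by rw [hR]; exact Multiset.mem_toFinset.2 hθ), mul_sub]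
        rw [e3, mul_left_comm]
        simp only [eq_intCast]
      have e4 : ((f.leadingCoeff : 𝓞 L) * ((f.map (Int.castRingHom L)).roots.map
            (fun θ => (N : 𝓞 L) * t - b θ)).prod) =
          (N : 𝓞 L) ^ Multiset.card (f.map (Int.castRingHom L)).roots * ((f.eval t : ℤ) : 𝓞 L) := by
        apply inj
        have e5 : algebraMap (𝓞 L) L ((f.map (Int.castRingHom L)).roots.map
            (fun θ => (N : 𝓞 L) * t - b θ)).prod =
            ((f.map (Int.castRingHom L)).roots.map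
            (fun θ => (N : L) * t - algebraMap (𝓞 L) L (b θ))).prod := by
          rw [map_multiset_prod, Multiset.map_map]
          have e6 : ∀ θ : L, (⇑(algebraMap (𝓞 L) L) ∘ fun θ => (N : 𝓞 L) * t - b θ) θ =
              (N : L) * t - algebraMap (𝓞 L) L (b θ) := by
            intro θ
            simp only [Function.comp, map_sub, map_mul, map_intCast]
          rw [show (⇑(algebraMap (𝓞 L) L) ∘ fun θ => (N : 𝓞 L) * t - b θ) =
            fun θ => (N : L) * t - algebraMap (𝓞 L) L (b θ) from funext e6]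
        rw [map_mul, map_mul, map_pow, map_intCast, map_intCast, map_intCast, e5, ← e2]
        congr 1
        rw [eval_map]
        exact Polynomial.eval₂_at_apply (p := f) (Int.castRingHom L) t
      have e6 := congrArg φ e4
      rw [map_mul, map_mul, map_intCast, map_intCast φ (f.eval t), ht0, mul_zero,
        map_multiset_prod, Multiset.map_map] at e6
      have e7 := (mul_eq_zero.1 e6).resolve_left hcp
      rw [Multiset.prod_eq_zero_iff, Multiset.mem_map] at e7
      obtain ⟨θ, hθ, hθ0⟩ := e7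
      refine ⟨θ, by rw [hR]; exact Multiset.mem_toFinset.2 hθ, ?_⟩
      simp only [Function.comp, map_sub, map_mul, map_intCast] at hθ0
      exact (sub_eq_zero.1 hθ0).symm
    obtain ⟨θ, hθ, hφ⟩ := hprod
    obtain ⟨s, hs⟩ := hg θ ((hRm θ).1 hθ) k
    have e1 : ((N : L) ^ (g k).natDegree * s) ^ 2 = algebraMap (𝓞 L) L ((N : 𝓞 L) ^ (g k).natDegree *
        eval₂ (Int.castRingHom (𝓞 L)) (b θ) (scaleRoots (g k) N)) := by
      rw [map_mul, map_pow, map_intCast, coe_eval, hscL (g k) θ hθ, hs]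
      ring
    have e2 : IsIntegral ℤ ((N : L) ^ (g k).natDegree * s) := by
      refine IsIntegral.of_pow (n := 2) two_pos ?_
      rw [e1]
      exact RingOfIntegers.isIntegral_coe _
    obtain ⟨σ, hσ⟩ : ∃ σ : 𝓞 L, algebraMap (𝓞 L) L σ = (N : L) ^ (g k).natDegree * s :=
      ⟨⟨_, e2⟩, rfl⟩
    have e3 : σ ^ 2 = (N : 𝓞 L) ^ (g k).natDegree *
        eval₂ (Int.castRingHom (𝓞 L)) (b θ) (scaleRoots (g k) N) := by
      apply inj
      rw [← e1, ← hσ, map_pow]
    have e4 := congrArg φ e3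
    rw [map_pow, map_mul, map_pow, map_intCast, hom_eval, hφ, hsc, hev] at e4
    refine ⟨φ σ / (N : ZMod p) ^ (g k).natDegree, ?_⟩
    field_simp
    rw [e4]
    ring
  · have hroot : ∀ θ ∈ R, (p : ℤ) ∣ f.eval (((φ (b θ) / (N : ZMod p)).val : ℕ) : ℤ) := by
      intro θ hθ
      rw [← ZMod.intCast_zmod_eq_zero_iff_dvd, ← hev]
      have e1 : (((((φ (b θ) / (N : ZMod p)).val : ℕ) : ℤ)) : ZMod p) = φ (b θ) / (N : ZMod p) := by
        push_cast
        exact ZMod.natCast_zmod_val _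
      rw [e1]
      have e2 := hsc f (φ (b θ) / (N : ZMod p))
      rw [mul_div_cancel₀ _ hNp, ← hom_eval] at e2
      have e3 : eval₂ (Int.castRingHom (𝓞 L)) (b θ) (scaleRoots f N) = 0 := by
        apply inj
        rw [coe_eval, hscL f θ hθ, (hRm θ).1 hθ, mul_zero, map_zero]
      rw [e3, map_zero] at e2
      exact (mul_eq_zero.1 e2.symm).resolve_left (pow_ne_zero _ hNp)
    have hne : (φ (b θ₁) / (N : ZMod p)).val ≠ (φ (b θ₂) / (N : ZMod p)).val := by
      intro h
      have h1 := ZMod.val_injective p h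
      rw [div_left_inj' hNp] at h1
      obtain ⟨d, hd⟩ := hM
      have h3 := congrArg φ hd
      rw [map_mul, map_sub, h1, sub_self, zero_mul] at h3
      apply hMp
      rw [← h3]
      simp
    unfold Pool.Agent.H474R2.PG.rho
    rw [Nat.succ_le_iff, Finset.one_lt_card]
    exact ⟨_, Finset.mem_filter.2 ⟨Finset.mem_range.2 (ZMod.val_lt _), hroot θ₁ ((hRm _).2 hθ₁)⟩, _,
      Finset.mem_filter.2 ⟨Finset.mem_range.2 (ZMod.val_lt _), hroot θ₂ ((hRm _).2 hθ₂)⟩, hne⟩

end modp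

end Pool.Agent.W338.TW
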